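import Pool.Agent.Lib.MP_9ccfb7_an.Stmt

open Set Metric Filter Topology
open scoped ContDiff

namespace Pool.Agent.Lib.MP_9ccfb7_an

/-- Closed annulus (a closed disc if `r ≤ 0`). -/
def ann (c : ℂ) (r R : ℝ) : Set ℂ := {z | r ≤ ‖z - c‖ ∧ ‖z - c‖ ≤ R}

/-- Graph of `f` over `D`. -/
def gr (f : ℂ → ℂ) (D : Set ℂ) : Set (ℂ × ℂ) := {x | x.1 ∈ D ∧ x.2 = f x.1}

/-- Union of the graphs of the `F i` over the annuli `r i ≤ |z - c i| ≤ R i`. -/
def surf {ι : Type*} (c : ι → ℂ) (r R : ι → ℝ) (F : ι → ℂ → ℂ) : Set (ℂ × ℂ) :=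
  ⋃ i, gr (F i) (ann (c i) (r i) (R i))

theorem isCompact_ann (c : ℂ) (r R : ℝ) : IsCompact (ann c r R) := by
  refine (isCompact_closedBall c R).of_isClosed_subset ?_ fun z hz => mem_closedBall_iff_norm.2 hz.2
  have h : Continuous fun z : ℂ => ‖z - c‖ := by fun_prop
  exact (isClosed_le continuous_const h).inter (isClosed_le h continuous_const)

theorem gr_eq (f : ℂ → ℂ) (D : Set ℂ) : gr f D = (fun z => (z, f z)) '' D := by
  ext ⟨z, w⟩
  constructor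
  · rintro ⟨h1, h2⟩
    exact ⟨z, h1, by simp only [Prod.mk.injEq, true_and]; exact h2.symm⟩
  · rintro ⟨u, h1, h2⟩
    simp only [Prod.mk.injEq] at h2
    obtain ⟨rfl, rfl⟩ := h2
    exact ⟨h1, rfl⟩

theorem isCompact_gr {f : ℂ → ℂ} (hf : Continuous f) {D : Set ℂ} (hD : IsCompact D) :
    IsCompact (gr f D) := by
  rw [gr_eq]
  exact hD.image (continuous_id.prodMk hf)

theorem isCompact_surf {ι : Type*} [Finite ι] (c : ι → ℂ) (r R : ι → ℝ) {F : ι → ℂ → ℂ}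
    (hF : ∀ i, Continuous (F i)) : IsCompact (surf c r R F) :=
  isCompact_iUnion fun i => isCompact_gr (hF i) (isCompact_ann _ _ _)

theorem ann_mono (c : ℂ) (r : ℝ) {R R' : ℝ} (h : R ≤ R') : ann c r R ⊆ ann c r R' :=
  fun _ hz => ⟨hz.1, hz.2.trans h⟩

namespace Srf

theorem chart {ψ χ f : ℂ → ℂ} {s t : Set ℂ} (hs : IsOpen s) (ht : IsOpen t)
    (h1 : MapsTo ψ s t) (h2 : MapsTo χ t s) (h3 : ∀ z ∈ s, χ (ψ z) = z)
    (h4 : ∀ z ∈ t, ψ (χ z) = z) (h5 : ContDiffOn ℝ ∞ ψ s) (h6 : ContDiffOn ℝ ∞ χ t)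
    (hf : ContDiff ℝ ∞ f) {U : Set (ℂ × ℂ)} (hU : IsOpen U) :
    ∃ φ : OpenPartialHomeomorph (ℂ × ℂ) (ℂ × ℂ), φ.source = {x | x.1 ∈ s} ∩ U ∧
      ContDiffOn ℝ ∞ φ φ.source ∧ ContDiffOn ℝ ∞ φ.symm φ.target ∧
      ∀ x, φ x = (ψ x.1, x.2 - f x.1) := by
  have a1 : ContDiffOn ℝ ∞ (fun x : ℂ × ℂ => (ψ x.1, x.2 - f x.1)) {x | x.1 ∈ s} :=
    (h5.comp contDiffOn_fst fun x hx => hx).prodMk
      (contDiffOn_snd.sub (hf.comp contDiff_fst).contDiffOn)
  have b1 : ContDiffOn ℝ ∞ (fun x : ℂ × ℂ => χ x.1) {x | x.1 ∈ t} :=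
    h6.comp contDiffOn_fst fun x hx => hx
  have a2 : ContDiffOn ℝ ∞ (fun x : ℂ × ℂ => (χ x.1, x.2 + f (χ x.1))) {x | x.1 ∈ t} :=
    b1.prodMk (contDiffOn_snd.add (hf.comp_contDiffOn b1))
  let φ0 : OpenPartialHomeomorph (ℂ × ℂ) (ℂ × ℂ) :=
    { toFun := fun x => (ψ x.1, x.2 - f x.1)
      invFun := fun x => (χ x.1, x.2 + f (χ x.1))
      source := {x | x.1 ∈ s}
      target := {x | x.1 ∈ t}
      map_source' := fun x hx => h1 hx
      map_target' := fun x hx => h2 hx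
      left_inv' := fun x hx => by
        have := h3 x.1 hx
        ext
        · exact this
        · simp [this]
      right_inv' := fun x hx => by
        have := h4 x.1 hx
        ext
        · exact this
        · simp
      open_source := hs.preimage continuous_fst
      open_target := ht.preimage continuous_fst
      continuousOn_toFun := a1.continuousOn
      continuousOn_invFun := a2.continuousOn }
  refine ⟨φ0.restrOpen U hU, rfl, a1.mono inter_subset_left, a2.mono inter_subset_left,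
    fun x => rfl⟩

theorem re_mob {u : ℂ} (hu : 1 + u ≠ 0) : 0 ≤ ((1 - u) / (1 + u)).re ↔ ‖u‖ ≤ 1 := by
  have h0 : 0 < Complex.normSq (1 + u) := Complex.normSq_pos.2 hu
  have h1 : ((1 - u) / (1 + u)).re = (1 - ‖u‖ ^ 2) / Complex.normSq (1 + u) := by
    rw [Complex.div_re, ← add_div, Complex.sq_norm, Complex.normSq_apply u]
    simp only [Complex.sub_re, Complex.one_re, Complex.add_re, Complex.sub_im, Complex.one_im,
      Complex.add_im]
    ring_nf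
  rw [h1, le_div_iff₀ h0, zero_mul, sub_nonneg, sq_le_one_iff₀ (norm_nonneg u)]

theorem re_mob' {u : ℂ} (hu : 1 + u ≠ 0) : 0 ≤ (-((1 - u) / (1 + u))).re ↔ 1 ≤ ‖u‖ := by
  have h0 : 0 < Complex.normSq (1 + u) := Complex.normSq_pos.2 hu
  have h1 : (-((1 - u) / (1 + u))).re = (‖u‖ ^ 2 - 1) / Complex.normSq (1 + u) := by
    rw [Complex.neg_re, Complex.div_re, ← add_div, Complex.sq_norm, Complex.normSq_apply u]
    simp only [Complex.sub_re, Complex.one_re, Complex.add_re, Complex.sub_im, Complex.one_im,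
      Complex.add_im]
    ring_nf
  rw [h1, le_div_iff₀ h0, zero_mul, sub_nonneg, one_le_sq_iff₀ (norm_nonneg u)]

/-- Planar chart at a point of an annulus. -/
theorem plane {c z0 : ℂ} {r R : ℝ} (hrR : r < R) (hR : 0 < R) (hz : z0 ∈ ann c r R) :
    ∃ (ψ χ : ℂ → ℂ) (s t V : Set ℂ), IsOpen s ∧ IsOpen t ∧ IsOpen V ∧ z0 ∈ s ∧ z0 ∈ V ∧
      MapsTo ψ s t ∧ MapsTo χ t s ∧ (∀ z ∈ s, χ (ψ z) = z) ∧ (∀ z ∈ t, ψ (χ z) = z) ∧
      ContDiffOn ℝ ∞ ψ s ∧ ContDiffOn ℝ ∞ χ t ∧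
      ∀ z ∈ s, z ∈ V → (z ∈ ann c r R ↔ 0 ≤ (ψ z).re) := by
  have hn : Continuous fun z : ℂ => ‖z - c‖ := by fun_prop
  have mob : ∀ ε : ℂ, ε * ε = 1 → z0 - c ≠ 0 → ∃ (ψ χ : ℂ → ℂ) (s t : Set ℂ), IsOpen s ∧
      IsOpen t ∧ z0 ∈ s ∧ MapsTo ψ s t ∧ MapsTo χ t s ∧ (∀ z ∈ s, χ (ψ z) = z) ∧
      (∀ z ∈ t, ψ (χ z) = z) ∧ ContDiffOn ℝ ∞ ψ s ∧ ContDiffOn ℝ ∞ χ t ∧
      ∀ z ∈ s, 1 + (z - c) / (z0 - c) ≠ 0 ∧
        ψ z = ε * ((1 - (z - c) / (z0 - c)) / (1 + (z - c) / (z0 - c))) := by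
    intro ε hε h0
    have inv : ∀ u : ℂ, 1 + u ≠ 0 → 1 + (1 - u) / (1 + u) ≠ 0 ∧
        (1 - (1 - u) / (1 + u)) / (1 + (1 - u) / (1 + u)) = u := by
      intro u hu
      have e1 : 1 + (1 - u) / (1 + u) = 2 / (1 + u) := by field_simp; ring
      have e2 : 1 - (1 - u) / (1 + u) = 2 * u / (1 + u) := by field_simp; ring
      refine ⟨by rw [e1]; exact div_ne_zero two_ne_zero hu, ?_⟩
      rw [e1, e2]; field_simp
    refine ⟨fun z => ε * ((1 - (z - c) / (z0 - c)) / (1 + (z - c) / (z0 - c))),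
      fun y => c + (z0 - c) * ((1 - ε * y) / (1 + ε * y)),
      {z | 1 + (z - c) / (z0 - c) ≠ 0}, {y | 1 + ε * y ≠ 0},
      isOpen_ne_fun (by fun_prop) continuous_const, isOpen_ne_fun (by fun_prop) continuous_const,
      ?_, ?_, ?_, ?_, ?_, ?_, ?_, fun z hz => ⟨hz, rfl⟩⟩
    · show 1 + (z0 - c) / (z0 - c) ≠ 0
      rw [div_self h0]; norm_num
    · intro z hz
      show 1 + ε * (ε * _) ≠ 0
      rw [← mul_assoc, hε, one_mul]
      exact (inv _ hz).1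
    · intro y hy
      show 1 + (c + (z0 - c) * ((1 - ε * y) / (1 + ε * y)) - c) / (z0 - c) ≠ 0
      rw [add_sub_cancel_left, mul_div_cancel_left₀ _ h0]
      exact (inv _ hy).1
    · intro z hz
      show c + (z0 - c) * ((1 - ε * (ε * _)) / (1 + ε * (ε * _))) = z
      rw [← mul_assoc, hε, one_mul, (inv _ hz).2, mul_div_cancel₀ _ h0, add_sub_cancel]
    · intro y hy
      show ε * ((1 - (c + (z0 - c) * ((1 - ε * y) / (1 + ε * y)) - c) / (z0 - c)) /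
        (1 + (c + (z0 - c) * ((1 - ε * y) / (1 + ε * y)) - c) / (z0 - c))) = y
      rw [add_sub_cancel_left, mul_div_cancel_left₀ _ h0, (inv _ hy).2, ← mul_assoc, hε, one_mul]
    · refine ContDiffOn.restrict_scalars ℝ (𝕜' := ℂ)
        (contDiffOn_const.mul (ContDiffOn.div ?_ ?_ fun z hz => hz))
      · exact (contDiff_const.sub ((contDiff_id.sub contDiff_const).div_const _)).contDiffOn
      · exact (contDiff_const.add ((contDiff_id.sub contDiff_const).div_const _)).contDiffOn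
    · refine ContDiffOn.restrict_scalars ℝ (𝕜' := ℂ) (contDiffOn_const.add
        (contDiffOn_const.mul (ContDiffOn.div ?_ ?_ fun z hz => hz)))
      · exact (contDiff_const.sub (contDiff_const.mul contDiff_id)).contDiffOn
      · exact (contDiff_const.add (contDiff_const.mul contDiff_id)).contDiffOn
  by_cases h1 : ‖z0 - c‖ = R
  · have h0 : z0 - c ≠ 0 := by
      intro h; rw [h, norm_zero] at h1; linarith
    obtain ⟨ψ, χ, s, t, a1, a2, a3, a4, a5, a6, a7, a8, a9, b⟩ := mob 1 (one_mul 1) h0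
    refine ⟨ψ, χ, s, t, {z | r < ‖z - c‖}, a1, a2, isOpen_lt continuous_const hn, a3,
      by show r < _; rw [h1]; exact hrR, a4, a5, a6, a7, a8, a9, fun z hz hV => ?_⟩
    rw [(b z hz).2, one_mul, re_mob (b z hz).1, norm_div, h1, div_le_one hR]
    exact ⟨fun h => h.2, fun h => ⟨le_of_lt hV, h⟩⟩
  by_cases h2 : ‖z0 - c‖ = r ∧ 0 < r
  · have h0 : z0 - c ≠ 0 := by
      intro h; rw [h, norm_zero] at h2; linarith [h2.1, h2.2]
    obtain ⟨ψ, χ, s, t, a1, a2, a3, a4, a5, a6, a7, a8, a9, b⟩ := mob (-1) (by norm_num) h0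
    refine ⟨ψ, χ, s, t, {z | ‖z - c‖ < R}, a1, a2, isOpen_lt hn continuous_const, a3,
      by show _ < R; rw [h2.1]; exact hrR, a4, a5, a6, a7, a8, a9, fun z hz hV => ?_⟩
    rw [(b z hz).2, neg_one_mul, re_mob' (b z hz).1, norm_div, h2.1, one_le_div h2.2]
    exact ⟨fun h => h.1, fun h => ⟨h, le_of_lt hV⟩⟩
  · have h3 : ‖z0 - c‖ < R := lt_of_le_of_ne hz.2 h1
    have hV : ∃ V : Set ℂ, IsOpen V ∧ z0 ∈ V ∧ ∀ z ∈ V, r ≤ ‖z - c‖ := by
      by_cases hr : 0 < r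
      · exact ⟨{z | r < ‖z - c‖}, isOpen_lt continuous_const hn,
          lt_of_le_of_ne hz.1 fun h => h2 ⟨h.symm, hr⟩, fun z hz => le_of_lt hz⟩
      · exact ⟨univ, isOpen_univ, mem_univ _, fun z _ => (not_lt.1 hr).trans (norm_nonneg _)⟩
    obtain ⟨V, v1, v2, v3⟩ := hV
    refine ⟨fun z => z - z0 + 1, fun y => y - 1 + z0, univ, univ,
      V ∩ {z | ‖z - c‖ < R} ∩ ball z0 1, isOpen_univ, isOpen_univ,
      (v1.inter (isOpen_lt hn continuous_const)).inter isOpen_ball, mem_univ _,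
      ⟨⟨v2, h3⟩, mem_ball_self one_pos⟩, mapsTo_univ _ _, mapsTo_univ _ _,
      fun z _ => by ring, fun z _ => by ring,
      ((contDiff_id.sub contDiff_const).add contDiff_const).contDiffOn,
      ((contDiff_id.sub contDiff_const).add contDiff_const).contDiffOn, fun z _ hz => ?_⟩
    refine iff_of_true ⟨v3 z hz.1.1, le_of_lt hz.1.2⟩ ?_
    have h4 : ‖z - z0‖ < 1 := mem_ball_iff_norm.1 hz.2
    have h5 := Complex.abs_re_le_norm (z - z0)
    rw [Complex.add_re, Complex.one_re]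
    linarith [neg_abs_le (z - z0).re]

end Srf

theorem isSurface_surf {ι : Type*} [Finite ι] {c : ι → ℂ} {r R : ι → ℝ} {F : ι → ℂ → ℂ}
    (hF : ∀ i, ContDiff ℝ ∞ (F i)) (hr : ∀ i, r i < R i) (hR : ∀ i, 0 < R i)
    (hd : ∀ i j, i ≠ j → ∀ z ∈ ann (c i) (r i) (R i), z ∈ ann (c j) (r j) (R j) →
      F i z ≠ F j z) : IsSurface (surf c r R F) := by
  refine ⟨isCompact_surf c r R fun i => (hF i).continuous, fun p hp => ?_⟩
  obtain ⟨i, hi⟩ := mem_iUnion.1 hp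
  obtain ⟨ψ, χ, s, t, V, a1, a2, a3, a4, a5, a6, a7, a8, a9, b1, b2, b3⟩ :=
    Srf.plane (hr i) (hR i) hi.1
  have hT : IsClosed (⋃ j : {j // j ≠ i}, gr (F j) (ann (c j) (r j) (R j))) :=
    isClosed_iUnion_of_finite fun j =>
      (isCompact_gr (hF j).continuous (isCompact_ann _ _ _)).isClosed
  obtain ⟨φ, e1, e2, e3, e4⟩ := Srf.chart a1 a2 a6 a7 a8 a9 b1 b2 (hF i)
    ((a3.preimage continuous_fst).inter hT.isOpen_compl)
  refine ⟨φ, ?_, e2, e3, fun x hx => ?_⟩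
  · rw [e1]
    refine ⟨a4, a5, fun h => ?_⟩
    obtain ⟨j, hj⟩ := mem_iUnion.1 h
    exact hd i j j.2.symm p.1 hi.1 hj.1 (hi.2.symm.trans hj.2)
  · rw [e1] at hx
    rw [e4, sub_eq_zero, ← b3 x.1 hx.1 hx.2.1]
    constructor
    · intro h
      obtain ⟨j, hj⟩ := mem_iUnion.1 h
      by_cases hji : j = i
      · subst hji
        exact ⟨hj.2, hj.1⟩
      · exact absurd (mem_iUnion.2 ⟨⟨j, hji⟩, hj⟩) hx.2.2
    · exact fun h => mem_iUnion.2 ⟨i, h.2, h.1⟩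

end Pool.Agent.Lib.MP_9ccfb7_an
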