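import Pool.Agent.Lib.MP_9ccfb7_an.NoGr

open Set Metric Filter Topology
open scoped ContDiff

namespace Pool.Agent.Lib.MP_9ccfb7_an

/-- `(F', R')` is `ε`-close to `(F, R)` in `C^k`, and the radii grow. -/
def Close {ι : Type*} (k : ℕ) (ε : ℝ) (F F' : ι → ℂ → ℂ) (R R' : ι → ℝ) : Prop :=
  ∀ i, (∀ j ≤ k, ∀ z, ‖iteratedFDeriv ℝ j (fun z => F' i z - F i z) z‖ ≤ ε) ∧
    R i ≤ R' i ∧ R' i ≤ R i + ε

theorem Close.mono {ι : Type*} {k k' : ℕ} {ε ε' : ℝ} {F F' : ι → ℂ → ℂ} {R R' : ι → ℝ}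
    (h : Close k ε F F' R R') (hk : k' ≤ k) (hε : ε ≤ ε') : Close k' ε' F F' R R' :=
  fun i => ⟨fun j hj z => ((h i).1 j (hj.trans hk) z).trans hε, (h i).2.1,
    (h i).2.2.trans (by linarith)⟩

theorem Close.refl {ι : Type*} (k : ℕ) {ε : ℝ} (hε : 0 ≤ ε) (F : ι → ℂ → ℂ) (R : ι → ℝ) :
    Close k ε F F R R := fun i => ⟨fun j _ z => by simpa using hε, le_rfl, by linarith⟩

theorem Close.trans {ι : Type*} {k : ℕ} {ε ε' : ℝ} {F F' F'' : ι → ℂ → ℂ} {R R' R'' : ι → ℝ}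
    (h : Close k ε F F' R R') (h' : Close k ε' F' F'' R' R'') (hF : ∀ i, ContDiff ℝ ∞ (F i))
    (hF' : ∀ i, ContDiff ℝ ∞ (F' i)) (hF'' : ∀ i, ContDiff ℝ ∞ (F'' i)) :
    Close k (ε + ε') F F'' R R'' := by
  refine fun i => ⟨fun j hj z => ?_, (h i).2.1.trans (h' i).2.1, by
    linarith [(h i).2.2, (h' i).2.2]⟩
  have e : (fun z => F'' i z - F i z) =
      (fun z => F' i z - F i z) + fun z => F'' i z - F' i z := by
    funext z; simp
  have hj' : ((j : ℕ∞) : WithTop ℕ∞) ≤ ∞ := by exact_mod_cast le_top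
  rw [e, iteratedFDeriv_add_apply ((((hF' i).sub (hF i)).of_le hj').contDiffAt)
    ((((hF'' i).sub (hF' i)).of_le hj').contDiffAt)]
  exact (norm_add_le _ _).trans (add_le_add ((h i).1 j hj z) ((h' i).1 j hj z))

theorem Close.norm {ι : Type*} {k : ℕ} {ε : ℝ} {F F' : ι → ℂ → ℂ} {R R' : ι → ℝ}
    (h : Close k ε F F' R R') (i : ι) (z : ℂ) : ‖F' i z - F i z‖ ≤ ε := by
  simpa using (h i).1 0 (Nat.zero_le k) z

namespace Lim

theorem geo {e : ℕ → ℝ} (he : ∀ n, e (n + 1) ≤ e n / 2) (h0 : e 0 ≤ 1) (n : ℕ) :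
    e n ≤ (1 / 2) ^ n := by
  induction n with
  | zero => simpa using h0
  | succ n ih => rw [pow_succ]; linarith [he n]

theorem tail {V : Type*} [NormedAddCommGroup V] [CompleteSpace V] {u : ℕ → V} {e : ℕ → ℝ}
    (hp : ∀ n, 0 < e n) (he : ∀ n, e (n + 1) ≤ e n / 2) (h0 : e 0 ≤ 1)
    (hu : ∀ n, ‖u (n + 1) - u n‖ ≤ e n / 2) (n : ℕ) :
    ‖u 0 + ∑' m, (u (m + 1) - u m) - u n‖ ≤ e n := by
  have hs : Summable fun m => u (m + 1) - u m :=
    Summable.of_norm_bounded summable_geometric_two fun m =>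
      (hu m).trans (by linarith [geo he h0 m, hp m])
  have h1 : Tendsto u atTop (𝓝 (u 0 + ∑' m, (u (m + 1) - u m))) := by
    refine (hs.hasSum.tendsto_sum_nat.const_add (u 0)).congr fun m => ?_
    rw [Finset.sum_range_sub]; abel
  have h2 : ∀ m, ‖u (n + m) - u n‖ ≤ e n - e (n + m) := by
    intro m
    induction m with
    | zero => simp
    | succ m ih =>
      have a := hu (n + m)
      have b := he (n + m)
      have c := norm_add_le (u (n + m + 1) - u (n + m)) (u (n + m) - u n)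
      rw [sub_add_sub_cancel] at c
      rw [← add_assoc]
      linarith
  refine le_of_tendsto ((h1.sub_const (u n)).norm) ?_
  filter_upwards [eventually_ge_atTop n] with m hm
  obtain ⟨k, rfl⟩ := Nat.exists_eq_add_of_le hm
  linarith [h2 k, hp (n + k)]

theorem near {ι : Type*} [Finite ι] (c : ι → ℂ) {r R : ι → ℝ} {F : ι → ℂ → ℂ}
    (hF : ∀ i, Continuous (F i)) (hr : ∀ i, r i ≤ R i) (hR : ∀ i, 0 < R i) {η : ℝ}
    (hη : 0 < η) : ∃ δ > 0, ∀ (F' : ι → ℂ → ℂ) (R' : ι → ℝ),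
      (∀ i z, ‖F' i z - F i z‖ ≤ δ) → (∀ i, R' i ≤ R i + δ) →
      surf c r R' F' ⊆ thickening η (surf c r R F) := by
  have h1 : ∀ i, ∀ᶠ δ in 𝓝[>] (0 : ℝ), ∀ z ∈ closedBall (c i) (R i + 1),
      ∀ z' ∈ closedBall (c i) (R i + 1), dist z z' ≤ δ → dist (F i z) (F i z') < η / 2 := by
    intro i
    obtain ⟨δ, hδ, h⟩ := Metric.uniformContinuousOn_iff.1
      ((isCompact_closedBall (c i) (R i + 1)).uniformContinuousOn_of_continuous
        (hF i).continuousOn) (η / 2) (half_pos hη)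
    filter_upwards [Ioo_mem_nhdsGT hδ] with t ht z hz z' hz' hd
    exact h z hz z' hz' (hd.trans_lt ht.2)
  obtain ⟨δ, h2, h3⟩ := ((eventually_all.2 h1).and
    (Ioo_mem_nhdsGT (lt_min one_pos (half_pos hη)))).exists
  have d1 : δ < 1 := (lt_min_iff.1 h3.2).1
  have d2 : δ < η / 2 := (lt_min_iff.1 h3.2).2
  refine ⟨δ, h3.1, fun F' R' a b x hx => ?_⟩
  obtain ⟨i, hi, hx2⟩ := mem_iUnion.1 hx
  have key : ∃ z' ∈ ann (c i) (r i) (R i), dist x.1 z' ≤ δ := by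
    by_cases h : ‖x.1 - c i‖ ≤ R i
    · exact ⟨x.1, ⟨hi.1, h⟩, by rw [dist_self]; exact h3.1.le⟩
    · have h' := not_le.1 h
      have hp : 0 < ‖x.1 - c i‖ := (hR i).trans h'
      have e : ‖c i + ((R i / ‖x.1 - c i‖ : ℝ) : ℂ) * (x.1 - c i) - c i‖ = R i := by
        rw [add_sub_cancel_left, norm_mul, Complex.norm_real, Real.norm_eq_abs,
          abs_of_pos (div_pos (hR i) hp), div_mul_cancel₀ _ hp.ne']
      refine ⟨c i + ((R i / ‖x.1 - c i‖ : ℝ) : ℂ) * (x.1 - c i),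
        ⟨by rw [e]; exact hr i, e.le⟩, ?_⟩
      have e2 : x.1 - (c i + ((R i / ‖x.1 - c i‖ : ℝ) : ℂ) * (x.1 - c i)) =
          ((1 - R i / ‖x.1 - c i‖ : ℝ) : ℂ) * (x.1 - c i) := by
        push_cast; ring
      rw [dist_eq_norm, e2, norm_mul, Complex.norm_real, Real.norm_eq_abs,
        abs_of_nonneg (sub_nonneg.2 ((div_le_one hp).2 h'.le)), sub_mul, one_mul,
        div_mul_cancel₀ _ hp.ne']
      linarith [hi.2, b i]
  obtain ⟨z', hz', hd⟩ := key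
  refine mem_thickening_iff.2 ⟨(z', F i z'), mem_iUnion.2 ⟨i, hz', rfl⟩, ?_⟩
  rw [Prod.dist_eq]
  refine max_lt (by linarith) ?_
  have h4 := h2 i x.1 (mem_closedBall_iff_norm.2 (by linarith [hi.2, b i])) z'
    (mem_closedBall_iff_norm.2 (by linarith [hz'.2])) hd
  have h5 := dist_triangle x.2 (F i x.1) (F i z')
  have h6 : dist x.2 (F i x.1) ≤ δ := by rw [hx2, dist_eq_norm]; exact a i x.1
  show dist x.2 (F i z') < η
  linarith

theorem gap {ι : Type*} [Finite ι] (c : ι → ℂ) (r R : ι → ℝ) {F : ι → ℂ → ℂ}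
    (hF : ∀ i, Continuous (F i))
    (hd : ∀ i j, i ≠ j → ∀ z ∈ ann (c i) (r i) (R i), z ∈ ann (c j) (r j) (R j) →
      F i z ≠ F j z) : ∃ d > 0, d ≤ 1 ∧ ∀ i j, i ≠ j → ∀ z ∈ ann (c i) (r i) (R i),
      z ∈ ann (c j) (r j) (R j) → 2 * d < ‖F i z - F j z‖ := by
  have h1 : ∀ i j, ∀ᶠ d in 𝓝[>] (0 : ℝ), i ≠ j → ∀ z ∈ ann (c i) (r i) (R i),
      z ∈ ann (c j) (r j) (R j) → 2 * d < ‖F i z - F j z‖ := by
    intro i j
    by_cases hij : i = j
    · exact Eventually.of_forall fun d h => absurd hij h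
    obtain ⟨a, ha, h⟩ := ((isCompact_ann (c i) (r i) (R i)).inter_right
      (isCompact_ann (c j) (r j) (R j)).isClosed).exists_forall_le'
      (f := fun z => ‖F i z - F j z‖) ((hF i).sub (hF j)).norm.continuousOn (a := 0)
      fun z hz => norm_pos_iff.2 (sub_ne_zero.2 (hd i j hij z hz.1 hz.2))
    filter_upwards [Ioo_mem_nhdsGT (half_pos ha)] with d hd _ z h1 h2
    linarith [h z ⟨h1, h2⟩, hd.2]
  obtain ⟨d, h2, h3⟩ := ((eventually_all.2 fun i => eventually_all.2 (h1 i)).and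
    (Ioo_mem_nhdsGT (one_pos (α := ℝ)))).exists
  exact ⟨d, h3.1, h3.2.le, h2⟩

theorem enum : ∃ (a : ℕ → ℂ) (ρ : ℕ → ℝ), (∀ n, 0 < ρ n) ∧
    ∀ (b : ℂ) (τ : ℝ), 0 < τ → ∃ n, ball (a n) (ρ n) ⊆ ball b τ := by
  obtain ⟨u, hu⟩ := TopologicalSpace.exists_dense_seq ℂ
  refine ⟨fun n => u (Nat.unpair n).1, fun n => 1 / (((Nat.unpair n).2 : ℝ) + 1),
    fun n => by positivity, fun b τ hτ => ?_⟩
  obtain ⟨k, hk⟩ := exists_nat_one_div_lt (half_pos hτ)
  obtain ⟨m, hm⟩ := hu.exists_dist_lt b (half_pos hτ)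
  refine ⟨Nat.pair m k, ?_⟩
  simp only [Nat.unpair_pair]
  refine ball_subset_ball' ?_
  rw [dist_comm]
  linarith

end Lim

/-- The limit theorem: a tower of polynomially convex configurations gives the surface. -/
theorem limit {ι St : Type*} [Finite ι] (c : ι → ℂ) (r Rm : ι → ℝ) (F : St → ι → ℂ → ℂ)
    (R : St → ι → ℝ) (Y : St → Set (ℂ × ℂ))
    (hF : ∀ s i, ContDiff ℝ ∞ (F s i))
    (hR : ∀ s i, r i < R s i ∧ 0 < R s i ∧ R s i ≤ Rm i)
    (hY : ∀ s, IsCompact (Y s) ∧ hull (Y s) ⊆ Y s ∧ surf c r (R s) (F s) ⊆ Y s ∧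
      ∀ z, {w | (z, w) ∈ Y s}.Finite)
    (hpt : ∀ s, ∃ y ∈ hull (surf c r (R s) (F s)), ‖y.1‖ ≤ 1 / 5)
    (hfix : ∀ i, ∀ z ∈ ann (c i) (r i) (Rm i), 1 / 4 ≤ ‖z‖)
    (s0 : St) (h0 : ∀ i j, i ≠ j → ∀ z ∈ ann (c i) (r i) (Rm i), z ∈ ann (c j) (r j) (Rm j) →
      F s0 i z ≠ F s0 j z)
    (hstep : ∀ (s : St) (k : ℕ) (ε : ℝ), 0 < ε → ∀ (a : ℂ) (ρ : ℝ), 0 < ρ →
      ∃ s', Close k ε (F s) (F s') (R s) (R s') ∧ NoGr (Y s') a ρ) :
    ∃ S, IsSurface S ∧ hull S ≠ S ∧ ¬ HasDisc (hull S) := by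
  obtain ⟨a, ρ, hρ, hen⟩ := Lim.enum
  obtain ⟨d, d0, d1, hd⟩ := Lim.gap c r Rm (fun i => (hF s0 i).continuous) h0
  have step : ∀ (n : ℕ) (p : St × {e : ℝ // 0 < e}), ∃ q : St × {e : ℝ // 0 < e},
      Close n (p.2.1 / 2) (F p.1) (F q.1) (R p.1) (R q.1) ∧ q.2.1 ≤ p.2.1 / 2 ∧
      ∀ (F' : ι → ℂ → ℂ) (R' : ι → ℝ), (∀ i z, ‖F' i z - F q.1 i z‖ ≤ q.2.1) →
        (∀ i, R' i ≤ R q.1 i + q.2.1) → NoGr (hull (surf c r R' F')) (a n) (ρ n) ∧
          NoVert (hull (surf c r R' F')) (1 / ((n : ℝ) + 1)) := by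
    rintro n ⟨s, e, he⟩
    obtain ⟨s', h1, h2⟩ := hstep s n (e / 2) (half_pos he) (a n) (ρ n) (hρ n)
    obtain ⟨y1, y2, y3, y4⟩ := hY s'
    obtain ⟨η1, a1, b1⟩ := h2.thick y1
    obtain ⟨η2, a2, b2⟩ := noVert_thick y1 y4 (τ := 1 / ((n : ℝ) + 1)) (by positivity)
    obtain ⟨η, a3, b3⟩ := hull_usc y1 (isOpen_thickening (δ := min η1 η2) (E := Y s'))
      (y2.trans (self_subset_thickening (lt_min a1 a2) _))
    obtain ⟨δ, a4, b4⟩ := Lim.near c (fun i => (hF s' i).continuous)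
      (fun i => (hR s' i).1.le) (fun i => (hR s' i).2.1) a3
    refine ⟨(s', ⟨min (e / 2) δ, lt_min (half_pos he) a4⟩), h1, min_le_left _ _,
      fun F' R' u v => ?_⟩
    have h3 : hull (surf c r R' F') ⊆ thickening (min η1 η2) (Y s') :=
      (hull_mono ((b4 F' R' (fun i z => (u i z).trans (min_le_right _ _)) fun i =>
        (v i).trans (add_le_add le_rfl (min_le_right _ _))).trans
        (thickening_subset_of_subset _ y3))).trans b3
    exact ⟨b1.mono (h3.trans (thickening_mono (min_le_left _ _) _)),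
      b2.mono (h3.trans (thickening_mono (min_le_right _ _) _))⟩
  choose nx h1 h2 h3 using step
  let p : ℕ → St × {e : ℝ // 0 < e} := fun n => Nat.rec (s0, ⟨d, d0⟩) nx n
  have pe : ∀ n, p (n + 1) = nx n (p n) := fun n => rfl
  let e : ℕ → ℝ := fun n => (p n).2.1
  have e0 : ∀ n, 0 < e n := fun n => (p n).2.2
  have e1 : ∀ n, e (n + 1) ≤ e n / 2 := fun n => h2 n (p n)
  have e2 : e 0 ≤ 1 := d1
  have cl : ∀ n, Close n (e n / 2) (F (p n).1) (F (p (n + 1)).1) (R (p n).1) (R (p (n + 1)).1) :=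
    fun n => h1 n (p n)
  let G : ι → ℂ → ℂ := fun i z =>
    F (p 0).1 i z + ∑' m, (F (p (m + 1)).1 i z - F (p m).1 i z)
  let T : ι → ℝ := fun i => R (p 0).1 i + ∑' m, (R (p (m + 1)).1 i - R (p m).1 i)
  have g1 : ∀ n i z, ‖G i z - F (p n).1 i z‖ ≤ e n := fun n i z =>
    Lim.tail (u := fun n => F (p n).1 i z) e0 e1 e2 (fun m => (cl m).norm i z) n
  have t1 : ∀ n i, |T i - R (p n).1 i| ≤ e n := fun n i =>
    Lim.tail (u := fun n => R (p n).1 i) e0 e1 e2 (fun m => by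
      rw [Real.norm_eq_abs, abs_le]
      constructor <;> linarith [(cl m i).2.1, (cl m i).2.2, e0 m]) n
  have el : Tendsto e atTop (𝓝 0) :=
    squeeze_zero (fun n => (e0 n).le) (Lim.geo e1 e2)
      (tendsto_pow_atTop_nhds_zero_of_lt_one (by norm_num) (by norm_num))
  have tl : ∀ i, Tendsto (fun n => R (p n).1 i) atTop (𝓝 (T i)) := fun i =>
    tendsto_iff_norm_sub_tendsto_zero.2 (squeeze_zero (fun n => norm_nonneg _)
      (fun n => by rw [Real.norm_eq_abs, abs_sub_comm]; exact t1 n i) el)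
  have t2 : ∀ n i, R (p n).1 i ≤ T i := fun n i =>
    (monotone_nat_of_le_succ fun m => (cl m i).2.1).ge_of_tendsto (tl i) n
  have t3 : ∀ i, T i ≤ Rm i := fun i =>
    le_of_tendsto' (tl i) fun n => (hR (p n).1 i).2.2
  have g2 : ∀ i, ContDiff ℝ ∞ (G i) := by
    intro i
    refine (hF _ i).add (contDiff_tsum_of_eventually (N := ⊤) (v := fun _ m => (1 / 2) ^ m)
      (fun m => (hF _ i).sub (hF _ i)) (fun k _ => summable_geometric_two) fun k _ => ?_)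
    rw [Nat.cofinite_eq_atTop]
    filter_upwards [eventually_ge_atTop k] with m hm z
    exact ((cl m i).1 k hm z).trans (by linarith [Lim.geo e1 e2 m, e0 m])
  have hS : IsSurface (surf c r T G) := by
    refine isSurface_surf g2 (fun i => (hR (p 0).1 i).1.trans_le (t2 0 i))
      (fun i => (hR (p 0).1 i).2.1.trans_le (t2 0 i)) fun i j hij z hi hj h => ?_
    have b1 := hd i j hij z (ann_mono _ _ (t3 i) hi) (ann_mono _ _ (t3 j) hj)
    have b2 : ‖G i z - F s0 i z‖ ≤ d := g1 0 i z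
    have b3 : ‖G j z - F s0 j z‖ ≤ d := g1 0 j z
    have b4 := norm_sub_le (G j z - F s0 j z) (G i z - F s0 i z)
    rw [h, sub_sub_sub_cancel_left] at b4
    rw [h] at b2
    linarith
  refine ⟨surf c r T G, hS, fun h => ?_, fun h => ?_⟩
  · obtain ⟨η, a1, b1⟩ := hull_usc hS.1 (N := {x | 1 / 5 < ‖x.1‖})
      (isOpen_lt continuous_const continuous_fst.norm) (by
        rw [h]
        intro x hx
        obtain ⟨i, hi, -⟩ := mem_iUnion.1 hx
        have := hfix i x.1 (ann_mono _ _ (t3 i) hi)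
        show 1 / 5 < ‖x.1‖
        linarith)
    obtain ⟨n, hn⟩ := (el.eventually (gt_mem_nhds a1)).exists
    obtain ⟨y, y1, y2⟩ := hpt (p n).1
    refine absurd (b1 (hull_mono (fun x hx => ?_) y1)) (not_lt.2 y2)
    obtain ⟨i, hi, hx2⟩ := mem_iUnion.1 hx
    refine mem_thickening_iff.2 ⟨(x.1, G i x.1),
      mem_iUnion.2 ⟨i, ann_mono _ _ (t2 n i) hi, rfl⟩, ?_⟩
    rw [Prod.dist_eq]
    refine max_lt (by rw [dist_self]; exact a1) ?_
    show dist x.2 (G i x.1) < η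
    rw [hx2, dist_comm, dist_eq_norm]
    exact (g1 n i x.1).trans_lt hn
  · have key := fun n => h3 n (p n) G T (g1 (n + 1)) fun i => by
      have := (abs_le.1 (t1 (n + 1) i)).2
      show T i ≤ R (p (n + 1)).1 i + e (n + 1)
      linarith
    rcases h.cases with ⟨b, τ, hτ, H⟩ | ⟨τ, hτ, H⟩
    · obtain ⟨n, hn⟩ := hen b τ hτ
      exact H _ _ hn (key n).1
    · obtain ⟨n, hn⟩ := exists_nat_one_div_lt hτ
      exact H _ hn.le (key n).2

end Pool.Agent.Lib.MP_9ccfb7_an
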