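import Pool.Agent.Lib.MP_9ccfb7_an.Limit

open Set Metric Filter Topology
open scoped ContDiff

namespace Pool.Agent.Lib.MP_9ccfb7_an

/-- Two compact curve pieces in the zero sets of `PC`, `PK` that meet in finitely many nodes. -/
structure Pair (Cb Kb : Set (ℂ × ℂ)) (PC PK : ℂ × ℂ → ℂ) : Prop where
  cC : IsCompact Cb
  cK : IsCompact Kb
  dC : Differentiable ℂ PC
  dK : Differentiable ℂ PK
  zC : ∀ y ∈ Cb, PC y = 0
  zK : ∀ y ∈ Kb, PK y = 0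
  nC : ∀ y ∈ Cb, PK y = 0 → y ∈ Kb
  nK : ∀ y ∈ Kb, PC y = 0 → y ∈ Cb
  fin : (Cb ∩ Kb).Finite

theorem Pair.symm {Cb Kb : Set (ℂ × ℂ)} {PC PK : ℂ × ℂ → ℂ} (h : Pair Cb Kb PC PK) :
    Pair Kb Cb PK PC :=
  ⟨h.cK, h.cC, h.dK, h.dC, h.zK, h.zC, h.nK, h.nC, inter_comm Cb Kb ▸ h.fin⟩

namespace NG

theorem hurwitz {l : Filter ℕ} [l.NeBot] {h : ℕ → ℂ → ℂ} {H : ℂ → ℂ} {U W : Set ℂ} {z0 : ℂ}
    (hU : IsOpen U) (hz : z0 ∈ U) (hl : TendstoLocallyUniformlyOn h H l U)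
    (hd : ∀ n, DifferentiableOn ℂ (h n) U) (hH : ContinuousOn H U) (h0 : H z0 = 0)
    (h1 : ∀ᶠ z in 𝓝[≠] z0, H z ≠ 0) (hW : W ∈ 𝓝 z0) (h2 : ∀ᶠ n in l, ∀ z ∈ W, h n z ≠ 0) :
    False := by
  obtain ⟨r, hr, hb⟩ := Metric.nhds_basis_closedBall.eventually_iff.1
    ((eventually_nhdsWithin_iff.1 h1).and ((show ∀ᶠ z in 𝓝 z0, z ∈ W from hW).and
      (hU.mem_nhds hz)))
  have hs : closedBall z0 r ⊆ U := fun z hz => (hb hz).2.2
  obtain ⟨m, hm, h3⟩ := (isCompact_sphere z0 r).exists_forall_le'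
    (f := fun z => ‖H z‖) (hH.mono (sphere_subset_closedBall.trans hs)).norm (a := 0)
    fun z hz => norm_pos_iff.2 ((hb (sphere_subset_closedBall hz)).1 fun e => by
      have e' : z = z0 := e
      rw [e', mem_sphere, dist_self] at hz
      exact hr.ne hz)
  have h4 := Metric.tendstoUniformlyOn_iff.1
    ((tendstoLocallyUniformlyOn_iff_forall_isCompact hU).1 hl _ hs (isCompact_closedBall z0 r))
    (m / 3) (by linarith)
  obtain ⟨n, a, b⟩ := (h2.and h4).exists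
  have h5 : DiffContOnCl ℂ (fun z => (h n z)⁻¹) (ball z0 r) := by
    refine DifferentiableOn.diffContOnCl ?_
    rw [closure_ball z0 hr.ne']
    exact ((hd n).mono hs).inv fun z hz => a z (hb hz).2.1
  have h6 := Complex.norm_le_of_forall_mem_frontier_norm_le isBounded_ball h5
    (C := (2 * m / 3)⁻¹) (fun z hz => by
      rw [frontier_ball z0 hr.ne'] at hz
      have c1 := b z (sphere_subset_closedBall hz)
      have c2 := h3 z hz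
      have c3 := norm_sub_norm_le (H z) (h n z)
      rw [dist_eq_norm] at c1
      rw [norm_inv]
      exact inv_anti₀ (by linarith) (by linarith)) (subset_closure (mem_ball_self hr))
  have h7 := b z0 (mem_closedBall_self hr.le)
  rw [h0, dist_zero_left] at h7
  have h8 : 0 < ‖h n z0‖ := norm_pos_iff.2 (a z0 (mem_of_mem_nhds hW))
  rw [norm_inv, inv_le_inv₀ h8 (by linarith)] at h6
  linarith

theorem split {Cb Kb : Set (ℂ × ℂ)} {PC PK : ℂ × ℂ → ℂ} (h : Pair Cb Kb PC PK) {a : ℂ} {ρ : ℝ}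
    {g : ℂ → ℂ} (hg : DifferentiableOn ℂ g (ball a ρ))
    (hm : ∀ z ∈ ball a ρ, (z, g z) ∈ Cb ∪ Kb) :
    (∀ z ∈ ball a ρ, (z, g z) ∈ Cb) ∨ ∀ z ∈ ball a ρ, (z, g z) ∈ Kb := by
  have h1 : DifferentiableOn ℂ (fun z => (z, g z)) (ball a ρ) := differentiableOn_id.prodMk hg
  rcases AnalyticOnNhd.eq_zero_or_eq_zero_of_mul_eq_zero
    ((h.dC.comp_differentiableOn h1).analyticOnNhd isOpen_ball)
    ((h.dK.comp_differentiableOn h1).analyticOnNhd isOpen_ball) (fun z hz => by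
      rcases hm z hz with e | e
      · exact mul_eq_zero_of_left (h.zC _ e) _
      · exact mul_eq_zero_of_right _ (h.zK _ e)) (convex_ball a ρ).isPreconnected with e | e
  · exact Or.inl fun z hz => (hm z hz).elim id fun k => h.nK _ k (e z hz)
  · exact Or.inr fun z hz => (hm z hz).elim (fun k => h.nC _ k (e z hz)) id

theorem free {Cb Kb U : Set (ℂ × ℂ)} {PC PK : ℂ × ℂ → ℂ} (h : Pair Cb Kb PC PK)
    (hU : IsOpen U) (hN : Cb ∩ Kb ⊆ U) {a : ℂ} {ρ R : ℝ} {g : ℕ → ℂ → ℂ} {G : ℂ → ℂ}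
    {l : Filter ℕ} [l.NeBot] (hg : ∀ n, DifferentiableOn ℂ (g n) (ball a ρ))
    (hG : DifferentiableOn ℂ G (ball a ρ)) (hl : TendstoLocallyUniformlyOn g G l (ball a ρ))
    (hR : ∀ n, ∀ z ∈ ball a ρ, ‖(z, g n z)‖ ≤ R) (hR' : ∀ z ∈ ball a ρ, ‖(z, G z)‖ ≤ R)
    (hK : ∀ n, ∀ z ∈ ball a ρ, (z, g n z) ∈ U → PK (z, g n z) ≠ 0)
    (hC : ∀ z ∈ ball a ρ, (z, G z) ∈ Cb) : ∀ z ∈ ball a ρ, (z, G z) ∉ Kb := by
  intro z0 hz0 hk
  have h1 : TendstoLocallyUniformlyOn (fun n z => (z, g n z)) (fun z => (z, G z)) l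
      (ball a ρ) := by
    rw [Metric.tendstoLocallyUniformlyOn_iff] at hl ⊢
    intro ε hε z hz
    obtain ⟨t, ht, H⟩ := hl ε hε z hz
    refine ⟨t, ht, H.mono fun n hn y hy => ?_⟩
    rw [Prod.dist_eq]
    exact max_lt (by rw [dist_self]; exact hε) (hn y hy)
  have h2 := ((isCompact_closedBall (0 : ℂ × ℂ) R).uniformContinuousOn_of_continuous
    h.dK.continuous.continuousOn).comp_tendstoLocallyUniformlyOn h1
    (fun z hz => mem_closedBall_zero_iff.2 (hR' z hz))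
    (Eventually.of_forall fun n z hz => mem_closedBall_zero_iff.2 (hR n z hz))
  have h3 : DifferentiableOn ℂ (fun z => (z, G z)) (ball a ρ) := differentiableOn_id.prodMk hG
  obtain ⟨ε, hε, hb⟩ := Metric.isOpen_iff.1 hU _ (hN ⟨hC z0 hz0, hk⟩)
  obtain ⟨t, ht, H⟩ := Metric.tendstoLocallyUniformlyOn_iff.1 h1 (ε / 2) (half_pos hε) z0 hz0
  rw [isOpen_ball.nhdsWithin_eq hz0] at ht
  have h4 : ∀ᶠ z in 𝓝 z0, dist (z, G z) (z0, G z0) < ε / 2 :=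
    Metric.tendsto_nhds.1 (h3.continuousOn.continuousAt (isOpen_ball.mem_nhds hz0)) _
      (half_pos hε)
  refine hurwitz isOpen_ball hz0 h2
    (fun n => h.dK.comp_differentiableOn (differentiableOn_id.prodMk (hg n)))
    (h.dK.comp_differentiableOn h3).continuousOn (h.zK _ hk) ?_
    (inter_mem (inter_mem ht h4) (isOpen_ball.mem_nhds hz0))
    (H.mono fun n hn z hz => hK n z hz.2 (hb ?_))
  · have h5 : ∀ᶠ z in 𝓝[≠] z0, z ∉ Prod.fst '' (Cb ∩ Kb) :=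
      (nhdsNE_le_cofinite z0) (h.fin.image Prod.fst).compl_mem_cofinite
    filter_upwards [h5, mem_nhdsWithin_of_mem_nhds (isOpen_ball.mem_nhds hz0)] with z a1 a2 e
    exact a1 ⟨(z, G z), ⟨hC z a2, h.nC _ (hC z a2) e⟩, rfl⟩
  · have c1 := hn z hz.1.1
    have c2 : dist (z, G z) (z0, G z0) < ε / 2 := hz.1.2
    have c3 := dist_triangle_left (z, g n z) (z0, G z0) (z, G z)
    rw [mem_ball]
    linarith

theorem core {Cb Kb U : Set (ℂ × ℂ)} {PC PK : ℂ × ℂ → ℂ} (h : Pair Cb Kb PC PK)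
    (hU : IsOpen U) (hN : Cb ∩ Kb ⊆ U) {a : ℂ} {ρ : ℝ} {g : ℕ → ℂ → ℂ}
    (hg : ∀ n, DifferentiableOn ℂ (g n) (ball a ρ))
    (hm : ∀ n : ℕ, ∀ z ∈ ball a ρ, (z, g n z) ∈ thickening (1 / ((n : ℝ) + 1)) (Cb ∪ Kb) \
      (U ∩ {y | PC y * PK y = 0})) :
    ∃ G, DifferentiableOn ℂ G (ball a ρ) ∧
      (∀ z ∈ ball a ρ, Tendsto (fun n => (z, g n z)) (hyperfilter ℕ) (𝓝 (z, G z))) ∧
      ((∀ z ∈ ball a ρ, (z, G z) ∈ Cb \ Kb) ∨ ∀ z ∈ ball a ρ, (z, G z) ∈ Kb \ Cb) := by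
  have hY := h.cC.union h.cK
  obtain ⟨R, hR⟩ := (hY.isBounded.thickening (δ := 1)).exists_norm_le
  have b1 : ∀ n, ∀ z ∈ ball a ρ, ‖(z, g n z)‖ ≤ R := fun n z hz =>
    hR _ (thick_le _ n (hm n z hz).1)
  obtain ⟨G, h1, h2⟩ := montel (hyperfilter ℕ) (U := ball a ρ) isOpen_ball (F := g) (C := R)
    fun z hz => by
      obtain ⟨r, hr, hb⟩ := Metric.isOpen_iff.1 isOpen_ball z hz
      exact ⟨r, hr, Eventually.of_forall fun j => ⟨(hg j).mono hb, fun w hw =>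
        (norm_snd_le (w, g j w)).trans (b1 j w (hb hw))⟩⟩
  have h3 : ∀ z ∈ ball a ρ, Tendsto (fun n => (z, g n z)) (hyperfilter ℕ) (𝓝 (z, G z)) :=
    fun z hz => tendsto_const_nhds.prodMk_nhds (h1.tendsto_at hz)
  have h4 : ∀ z ∈ ball a ρ, (z, G z) ∈ Cb ∪ Kb := fun z hz =>
    mem_of_thick hY.isClosed hyper_le (h3 z hz) fun n => (hm n z hz).1
  have b2 : ∀ z ∈ ball a ρ, ‖(z, G z)‖ ≤ R := fun z hz =>
    hR _ (self_subset_thickening one_pos _ (h4 z hz))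
  refine ⟨G, h2, h3, (split h h2 h4).imp (fun e z hz => ⟨e z hz, ?_⟩) fun e z hz => ⟨e z hz, ?_⟩⟩
  · exact free h hU hN hg h2 h1 b1 b2
      (fun n z hz u k => (hm n z hz).2 ⟨u, mul_eq_zero_of_right _ k⟩) e z hz
  · exact free h.symm hU (inter_comm Cb Kb ▸ hN) hg h2 h1 b1 b2
      (fun n z hz u k => (hm n z hz).2 ⟨u, mul_eq_zero_of_left k _⟩) e z hz

end NG

/-- NG1: smoothing the nodes kills all graphs if every graph in either curve meets a node. -/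
theorem ng1 {Cb Kb U : Set (ℂ × ℂ)} {PC PK : ℂ × ℂ → ℂ} (h : Pair Cb Kb PC PK)
    (hU : IsOpen U) (hN : Cb ∩ Kb ⊆ U) {a : ℂ} {ρ : ℝ} (hC : NoGr (Cb \ Kb) a ρ)
    (hK : NoGr (Kb \ Cb) a ρ) :
    ∃ η > 0, NoGr (thickening η (Cb ∪ Kb) \ (U ∩ {y | PC y * PK y = 0})) a ρ := by
  by_contra hc
  have hc' : ∀ n : ℕ, ∃ g : ℂ → ℂ, DifferentiableOn ℂ g (ball a ρ) ∧ ∀ z ∈ ball a ρ,
      (z, g z) ∈ thickening (1 / ((n : ℝ) + 1)) (Cb ∪ Kb) \ (U ∩ {y | PC y * PK y = 0}) := by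
    intro n
    by_contra h1
    exact hc ⟨1 / ((n : ℝ) + 1), by positivity, fun g hg H => h1 ⟨g, hg, H⟩⟩
  choose g hg using hc'
  obtain ⟨G, h1, -, h2 | h2⟩ := NG.core h hU hN (fun n => (hg n).1) fun n => (hg n).2
  · exact hC G h1 h2
  · exact hK G h1 h2

/-- NG2: if every graph in `Kb` meets a node, the graphs in the smoothed curve pass over `a0`
through a given neighbourhood `V` of the fibre of `Cb`. -/
theorem ng2 {Cb Kb U V : Set (ℂ × ℂ)} {PC PK : ℂ × ℂ → ℂ} (h : Pair Cb Kb PC PK)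
    (hU : IsOpen U) (hN : Cb ∩ Kb ⊆ U) {a a0 : ℂ} {ρ : ℝ} (hK : NoGr (Kb \ Cb) a ρ)
    (ha : a0 ∈ ball a ρ) (hV : IsOpen V) (hf : ∀ y ∈ Cb, y.1 = a0 → y ∈ V) :
    ∃ η > 0, NoGr ((thickening η (Cb ∪ Kb) \ (U ∩ {y | PC y * PK y = 0})) \
      (V ∩ {y | y.1 = a0})) a ρ := by
  by_contra hc
  have hc' : ∀ n : ℕ, ∃ g : ℂ → ℂ, DifferentiableOn ℂ g (ball a ρ) ∧ ∀ z ∈ ball a ρ,
      (z, g z) ∈ (thickening (1 / ((n : ℝ) + 1)) (Cb ∪ Kb) \ (U ∩ {y | PC y * PK y = 0})) \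
        (V ∩ {y | y.1 = a0}) := by
    intro n
    by_contra h1
    exact hc ⟨1 / ((n : ℝ) + 1), by positivity, fun g hg H => h1 ⟨g, hg, H⟩⟩
  choose g hg using hc'
  obtain ⟨G, h1, h3, h2 | h2⟩ := NG.core h hU hN (fun n => (hg n).1)
    fun n z hz => ((hg n).2 z hz).1
  · obtain ⟨n, hn⟩ := ((h3 a0 ha).eventually (hV.mem_nhds (hf _ (h2 a0 ha).1 rfl))).exists
    exact ((hg n).2 a0 ha).2 ⟨hn, rfl⟩
  · exact hK G h1 h2

/-- NG0: a set all of whose points over `a0` lie in `N` has no graph outside `N`. -/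
theorem ng0 {Z N : Set (ℂ × ℂ)} {a a0 : ℂ} {ρ : ℝ} (ha : a0 ∈ ball a ρ)
    (h : ∀ y ∈ Z, y.1 = a0 → y ∈ N) : NoGr (Z \ N) a ρ :=
  fun _ _ H => (H a0 ha).2 (h _ (H a0 ha).1 rfl)

/-- NG3: no graph in the whole configuration. -/
theorem ng3 {Cb Kb S : Set (ℂ × ℂ)} {PC PK : ℂ × ℂ → ℂ} (h : Pair Cb Kb PC PK) {a : ℂ} {ρ : ℝ}
    (hC : NoGr Cb a ρ) (hK : NoGr Kb a ρ)
    (hS : ∀ b τ, 0 < τ → NoGr (S \ (Cb ∪ Kb)) b τ) : NoGr (Cb ∪ Kb ∪ S) a ρ := by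
  intro g hg H
  by_cases hm : ∀ z ∈ ball a ρ, (z, g z) ∈ Cb ∪ Kb
  · exact (NG.split h hg hm).elim (hC g hg) (hK g hg)
  · simp only [not_forall] at hm
    obtain ⟨z, hz, hm⟩ := hm
    have h1 : ContinuousAt (fun z => (z, g z)) z :=
      (differentiableOn_id.prodMk hg).continuousOn.continuousAt (isOpen_ball.mem_nhds hz)
    obtain ⟨τ, hτ, hb⟩ := Metric.eventually_nhds_iff_ball.1 ((h1.eventually
      ((h.cC.union h.cK).isClosed.isOpen_compl.mem_nhds hm)).and (isOpen_ball.mem_nhds hz))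
    exact hS z τ hτ g (hg.mono fun u hu => (hb u hu).2) fun u hu =>
      ⟨(H u (hb u hu).2).resolve_left (hb u hu).1, (hb u hu).1⟩

/-- NG4: the surface has no holomorphic piece outside `Z`. -/
theorem ng4 {ι : Type*} [Finite ι] {c : ι → ℂ} {r R : ι → ℝ} {F : ι → ℂ → ℂ}
    (hF : ∀ i, Continuous (F i)) {Z : Set (ℂ × ℂ)} {T : Set ℂ} (hT : T.Finite)
    (h : ∀ i, ∀ z ∈ ann (c i) (r i) (R i), (z, F i z) ∉ Z → z ∉ T →
      ¬ DifferentiableAt ℂ (F i) z) (b : ℂ) (τ : ℝ) (hτ : 0 < τ) :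
    NoGr (surf c r R F \ Z) b τ := by
  intro g hg H
  have hs : closedBall b (τ / 2) ⊆ ball b τ := closedBall_subset_ball (half_lt_self hτ)
  let f : Option ι → Set ℂ := fun o => o.elim (ball b (τ / 2))ᶜ fun i =>
    (closedBall b (τ / 2) ∩ (fun z => g z - F i z) ⁻¹' {0}) ∩ ann (c i) (r i) (R i)
  have h1 : ∀ o, IsClosed (f o) := by
    rintro (_ | i)
    · exact isOpen_ball.isClosed_compl
    · exact (((hg.continuousOn.mono hs).sub (hF i).continuousOn).preimage_isClosed_of_isClosed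
        isClosed_closedBall isClosed_singleton).inter (isCompact_ann _ _ _).isClosed
  have h2 : ⋃ o, f o = univ := by
    refine eq_univ_of_forall fun z => ?_
    by_cases hz : z ∈ ball b (τ / 2)
    · obtain ⟨i, hi⟩ := mem_iUnion.1 (H z (hs (ball_subset_closedBall hz))).1
      exact mem_iUnion.2 ⟨some i, ⟨ball_subset_closedBall hz, sub_eq_zero.2 hi.2⟩, hi.1⟩
    · exact mem_iUnion.2 ⟨none, hz⟩
  obtain ⟨z, hz, hz'⟩ := (dense_iUnion_interior_of_closed h1 h2).inter_open_nonempty _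
    isOpen_ball ⟨b, mem_ball_self (half_pos hτ)⟩
  obtain ⟨o, ho⟩ := mem_iUnion.1 hz'
  rcases o with _ | i
  · exact interior_subset ho hz
  · obtain ⟨u, hu, huT⟩ := (infinite_of_mem_nhds z (isOpen_interior.mem_nhds ho)).exists_notMem_finite hT
    have h3 : ∀ᶠ v in 𝓝 u, v ∈ f (some i) := mem_interior_iff_mem_nhds.1 hu
    have h4 : u ∈ f (some i) := interior_subset hu
    have h5 : g u = F i u := sub_eq_zero.1 h4.1.2
    refine h i u h4.2 (h5 ▸ (H u (hs h4.1.1)).2) huT ?_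
    refine (hg.differentiableAt (isOpen_ball.mem_nhds (hs h4.1.1))).congr_of_eventuallyEq ?_
    exact h3.mono fun v hv => (sub_eq_zero.1 hv.1.2).symm

/-- NG5: four stages. `Cb s`, `Kb s` are the two curve pieces of the state `s`. -/
theorem ng5 {ι St : Type*} (F : St → ι → ℂ → ℂ) (R : St → ι → ℝ) (Cb Kb Y : St → Set (ℂ × ℂ))
    (hF : ∀ s i, ContDiff ℝ ∞ (F s i))
    (hY : ∀ s a ρ, NoGr (Cb s) a ρ → NoGr (Kb s) a ρ → NoGr (Y s) a ρ)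
    (hst : ∀ (s : St) (k : ℕ) (ε : ℝ), 0 < ε → ∀ (a : ℂ) (ρ : ℝ), 0 < ρ →
      ∃ s', Close k ε (F s) (F s') (R s) (R s') ∧ NoGr (Kb s' \ Cb s') a ρ ∧
        (NoGr (Kb s \ Cb s) a ρ → NoGr (Cb s' \ Kb s') a ρ) ∧
        (NoGr (Cb s \ Kb s) a ρ → NoGr (Kb s \ Cb s) a ρ → NoGr (Cb s') a ρ) ∧
        (NoGr (Cb s) a ρ → NoGr (Kb s') a ρ))
    (s : St) (k : ℕ) (ε : ℝ) (hε : 0 < ε) (a : ℂ) (ρ : ℝ) (hρ : 0 < ρ) :
    ∃ s', Close k ε (F s) (F s') (R s) (R s') ∧ NoGr (Y s') a ρ := by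
  have h4 : 0 < ε / 4 := by linarith
  obtain ⟨s1, c1, k1, -⟩ := hst s k _ h4 a ρ hρ
  obtain ⟨s2, c2, k2, d2, -⟩ := hst s1 k _ h4 a ρ hρ
  obtain ⟨s3, c3, k3, -, e3, -⟩ := hst s2 k _ h4 a ρ hρ
  obtain ⟨s4, c4, -, -, e4, f4⟩ := hst s3 k _ h4 a ρ hρ
  have n3 := e3 (d2 k1) k2
  refine ⟨s4, (((c1.trans c2 (hF _) (hF _) (hF _)).trans c3 (hF _) (hF _) (hF _)).trans c4
    (hF _) (hF _) (hF _)).mono le_rfl (by linarith), hY _ _ _ (e4 (n3.mono sdiff_subset) k3) (f4 n3)⟩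

end Pool.Agent.Lib.MP_9ccfb7_an
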