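import Pool.Agent.Lib.MP_9ccfb7_an.Surf

open Set Metric Filter Topology MvPolynomial

namespace Pool.Agent.Lib.MP_9ccfb7_an

/-- `Y` contains no holomorphic graph over the disc `D(a, ρ)`. -/
def NoGr (Y : Set (ℂ × ℂ)) (a : ℂ) (ρ : ℝ) : Prop :=
  ∀ g : ℂ → ℂ, DifferentiableOn ℂ g (ball a ρ) → ¬ ∀ z ∈ ball a ρ, (z, g z) ∈ Y

/-- `Y` contains no vertical disc of radius `τ`. -/
def NoVert (Y : Set (ℂ × ℂ)) (τ : ℝ) : Prop :=
  ∀ z w : ℂ, ¬ ∀ v ∈ ball w τ, (z, v) ∈ Y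

theorem NoGr.mono {Y Y' : Set (ℂ × ℂ)} {a : ℂ} {ρ : ℝ} (h : NoGr Y a ρ) (hY : Y' ⊆ Y) :
    NoGr Y' a ρ := fun g hg H => h g hg fun z hz => hY (H z hz)

theorem NoVert.mono {Y Y' : Set (ℂ × ℂ)} {τ : ℝ} (h : NoVert Y τ) (hY : Y' ⊆ Y) :
    NoVert Y' τ := fun z w H => h z w fun v hv => hY (H v hv)

theorem subset_hull (K : Set (ℂ × ℂ)) : K ⊆ hull K := fun x hx _ _ h => h x hx

theorem hull_mono {K Y : Set (ℂ × ℂ)} (h : K ⊆ Y) : hull K ⊆ hull Y :=
  fun _ hx p M hM => hx p M fun y hy => hM y (h hy)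

theorem cont_ev (p : MvPolynomial (Fin 2) ℂ) :
    Continuous fun y : ℂ × ℂ => eval ![y.1, y.2] p := by
  refine (MvPolynomial.continuous_eval p).comp (continuous_pi fun i => ?_)
  fin_cases i
  · exact continuous_fst
  · exact continuous_snd

theorem hull_norm {K : Set (ℂ × ℂ)} {M : ℝ} (h : ∀ y ∈ K, ‖y‖ ≤ M) {x : ℂ × ℂ}
    (hx : x ∈ hull K) : ‖x‖ ≤ M := by
  have h1 := hx (X 0) M fun y hy => by simpa using (norm_fst_le y).trans (h y hy)
  have h2 := hx (X 1) M fun y hy => by simpa using (norm_snd_le y).trans (h y hy)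
  rw [Prod.norm_def]
  exact max_le (by simpa using h1) (by simpa using h2)

/-- Upper semicontinuity of the hull. -/
theorem hull_usc {Y N : Set (ℂ × ℂ)} (hY : IsCompact Y) (hN : IsOpen N) (h : hull Y ⊆ N) :
    ∃ η > 0, hull (thickening η Y) ⊆ N := by
  obtain ⟨R, hR⟩ := (hY.isBounded.thickening (δ := 1)).exists_norm_le
  have hZ : IsCompact (closedBall (0 : ℂ × ℂ) R \ N) := (isCompact_closedBall _ _).diff hN
  have key : ∃ η > 0, ∀ x ∈ closedBall (0 : ℂ × ℂ) R \ N, x ∉ hull (thickening η Y) := by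
    refine hZ.induction_on (p := fun S => ∃ η > 0, ∀ x ∈ S, x ∉ hull (thickening η Y))
      ⟨1, one_pos, fun x hx => hx.elim⟩ ?_ ?_ ?_
    · rintro S T hST ⟨η, a, b⟩
      exact ⟨η, a, fun x hx => b x (hST hx)⟩
    · rintro S T ⟨η, a, b⟩ ⟨η', a', b'⟩
      refine ⟨min η η', lt_min a a', ?_⟩
      rintro x (hx | hx) hh
      · exact b x hx (hull_mono (thickening_mono (min_le_left _ _) Y) hh)
      · exact b' x hx (hull_mono (thickening_mono (min_le_right _ _) Y) hh)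
    · intro z hz
      have hz' : z ∉ hull Y := fun hh => hz.2 (h hh)
      simp only [hull, mem_ofPred_eq, not_forall, not_le] at hz'
      obtain ⟨g, m, hg, hm⟩ := hz'
      have hc := (cont_ev g).norm
      obtain ⟨η, a, b⟩ := hY.exists_thickening_subset_open
        (isOpen_lt hc continuous_const) (fun y hy =>
          show ‖eval ![y.1, y.2] g‖ < (m + ‖eval ![z.1, z.2] g‖) / 2 by linarith [hg y hy])
      refine ⟨{x | (m + ‖eval ![z.1, z.2] g‖) / 2 < ‖eval ![x.1, x.2] g‖},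
        mem_nhdsWithin_of_mem_nhds ((isOpen_lt continuous_const hc).mem_nhds ?_), η, a,
        fun x hx hh => ?_⟩
      · show _ < ‖eval ![z.1, z.2] g‖
        linarith
      · exact absurd (hh g _ fun y hy => le_of_lt (b hy)) (not_le.2 hx)
  obtain ⟨η, a, b⟩ := key
  refine ⟨min η 1, lt_min a one_pos, fun x hx => ?_⟩
  by_contra hxN
  refine b x ⟨mem_closedBall_zero_iff.2 ?_, hxN⟩
    (hull_mono (thickening_mono (min_le_left _ _) Y) hx)
  exact hull_norm hR (hull_mono (thickening_mono (min_le_right _ _) Y) hx)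

theorem montel (𝒰 : Ultrafilter ℕ) {U : Set ℂ} (hU : IsOpen U) {F : ℕ → ℂ → ℂ} {C : ℝ}
    (h : ∀ z ∈ U, ∃ r > 0, ∀ᶠ j in 𝒰, DifferentiableOn ℂ (F j) (ball z r) ∧
      ∀ w ∈ ball z r, ‖F j w‖ ≤ C) :
    ∃ G, TendstoLocallyUniformlyOn F G 𝒰 U ∧ DifferentiableOn ℂ G U := by
  have h1 : ∀ z ∈ U, ∃ g, Tendsto (fun j => F j z) 𝒰 (𝓝 g) := by
    intro z hz
    obtain ⟨r, hr, hj⟩ := h z hz
    obtain ⟨g, -, hg⟩ := (isCompact_closedBall (0 : ℂ) C).ultrafilter_le_nhds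
      (𝒰.map fun j => F j z) (le_principal_iff.mpr (hj.mono fun j hj =>
        mem_closedBall_zero_iff.mpr (hj.2 z (mem_ball_self hr))))
    exact ⟨g, hg⟩
  choose! G hG using h1
  have h2 : TendstoLocallyUniformlyOn F G 𝒰 U := by
    rw [Metric.tendstoLocallyUniformlyOn_iff]
    intro ε hε z hz
    obtain ⟨r, hr, hj⟩ := h z hz
    have hC : 0 ≤ C := (norm_nonneg _).trans (hj.exists.choose_spec.2 z (mem_ball_self hr))
    have hδ : 0 < min r (ε / 4 * r / (2 * C + 1)) := lt_min hr (by positivity)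
    have hL : ∀ᶠ j in 𝒰, ∀ y ∈ ball z (min r (ε / 4 * r / (2 * C + 1))),
        dist (F j y) (F j z) ≤ ε / 4 := by
      filter_upwards [hj] with j hj y hy
      have h3 := Complex.dist_le_div_mul_dist_of_mapsTo_ball hj.1 (R₂ := 2 * C + 1)
        (fun w hw => by
          rw [mem_closedBall_iff_norm]
          linarith [norm_sub_le (F j w) (F j z), hj.2 w hw, hj.2 z (mem_ball_self hr)])
        (ball_subset_ball (min_le_left _ _) hy)
      refine h3.trans ?_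
      have h4 := (lt_min_iff.mp (mem_ball.mp hy)).2.le
      calc _ ≤ (2 * C + 1) / r * (ε / 4 * r / (2 * C + 1)) := by gcongr
        _ = ε / 4 := by field_simp
    refine ⟨U ∩ ball z _, inter_mem_nhdsWithin U (ball_mem_nhds z hδ), ?_⟩
    filter_upwards [hL, Metric.tendsto_nhds.mp (hG z hz) (ε / 4) (by linarith)] with j h3 h4 y hy
    have h5 : dist (G y) (G z) ≤ ε / 4 :=
      le_of_tendsto ((hG y hy.1).dist (hG z hz)) (hL.mono fun j hj => hj y hy.2)
    have h6 := dist_triangle4 (G y) (G z) (F j z) (F j y)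
    rw [dist_comm (G z), dist_comm (F j z) (F j y)] at h6
    linarith [h3 y hy.2]
  refine ⟨G, h2, fun z hz => ?_⟩
  obtain ⟨r, hr, hj⟩ := h z hz
  have h3 := (h2.mono (inter_subset_left (t := ball z r))).differentiableOn
    (hj.mono fun j hj => hj.1.mono inter_subset_right) (hU.inter isOpen_ball)
  exact (h3.differentiableAt ((hU.inter isOpen_ball).mem_nhds
    ⟨hz, mem_ball_self hr⟩)).differentiableWithinAt

theorem mem_of_thick {Y : Set (ℂ × ℂ)} (hY : IsClosed Y) {l : Filter ℕ} [l.NeBot]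
    (hl : l ≤ atTop) {x : ℕ → ℂ × ℂ} {y : ℂ × ℂ} (hx : Tendsto x l (𝓝 y))
    (h : ∀ n : ℕ, x n ∈ thickening (1 / ((n : ℝ) + 1)) Y) : y ∈ Y := by
  rw [← hY.closure_eq, Metric.mem_closure_iff]
  intro ε hε
  have h1 : ∀ᶠ n : ℕ in l, 1 / ((n : ℝ) + 1) < ε / 2 :=
    hl ((tendsto_one_div_add_atTop_nhds_zero_nat (𝕜 := ℝ)).eventually
      (gt_mem_nhds (half_pos hε)))
  obtain ⟨n, a, b⟩ := (h1.and (Metric.tendsto_nhds.1 hx (ε / 2) (half_pos hε))).exists
  obtain ⟨q, hq, hd⟩ := mem_thickening_iff.1 (h n)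
  refine ⟨q, hq, ?_⟩
  have := dist_triangle_left y q (x n)
  linarith

theorem thick_le (Y : Set (ℂ × ℂ)) (n : ℕ) :
    thickening (1 / ((n : ℝ) + 1)) Y ⊆ thickening 1 Y :=
  thickening_mono (by
    rw [div_le_one (by positivity)]
    linarith [(Nat.cast_nonneg n : (0 : ℝ) ≤ n)]) Y

theorem hyper_le : ((hyperfilter ℕ : Ultrafilter ℕ) : Filter ℕ) ≤ atTop := by
  rw [← Nat.cofinite_eq_atTop]; exact hyperfilter_le_cofinite

theorem NoGr.thick {Y : Set (ℂ × ℂ)} (hY : IsCompact Y) {a : ℂ} {ρ : ℝ} (h : NoGr Y a ρ) :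
    ∃ η > 0, NoGr (thickening η Y) a ρ := by
  by_contra hc
  have hc' : ∀ n : ℕ, ∃ g : ℂ → ℂ, DifferentiableOn ℂ g (ball a ρ) ∧
      ∀ z ∈ ball a ρ, (z, g z) ∈ thickening (1 / ((n : ℝ) + 1)) Y := by
    intro n
    by_contra h1
    exact hc ⟨1 / ((n : ℝ) + 1), by positivity, fun g hg H => h1 ⟨g, hg, H⟩⟩
  choose g hg using hc'
  obtain ⟨R, hR⟩ := (hY.isBounded.thickening (δ := 1)).exists_norm_le
  obtain ⟨G, h1, h2⟩ := montel (hyperfilter ℕ) (U := ball a ρ) isOpen_ball (F := g) (C := R)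
    fun z hz => by
      obtain ⟨r, hr, hb⟩ := Metric.isOpen_iff.1 isOpen_ball z hz
      exact ⟨r, hr, Eventually.of_forall fun j => ⟨(hg j).1.mono hb, fun w hw =>
        (norm_snd_le (w, g j w)).trans (hR _ (thick_le Y j ((hg j).2 w (hb hw))))⟩⟩
  refine h G h2 fun z hz => ?_
  exact mem_of_thick hY.isClosed hyper_le (x := fun n => (z, g n z))
    (tendsto_const_nhds.prodMk_nhds (h1.tendsto_at hz)) fun n => (hg n).2 z hz

theorem noVert_thick {Y : Set (ℂ × ℂ)} (hY : IsCompact Y)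
    (hf : ∀ z, {w | (z, w) ∈ Y}.Finite) {τ : ℝ} (hτ : 0 < τ) :
    ∃ η > 0, NoVert (thickening η Y) τ := by
  by_contra hc
  have hc' : ∀ n : ℕ, ∃ x : ℂ × ℂ,
      ∀ v ∈ ball x.2 τ, (x.1, v) ∈ thickening (1 / ((n : ℝ) + 1)) Y := by
    intro n
    by_contra h1
    exact hc ⟨1 / ((n : ℝ) + 1), by positivity, fun z w H => h1 ⟨(z, w), H⟩⟩
  choose x hx using hc'
  obtain ⟨R, hR⟩ := (hY.isBounded.thickening (δ := 1)).exists_norm_le
  obtain ⟨y, -, hy⟩ := (isCompact_closedBall (0 : ℂ × ℂ) R).ultrafilter_le_nhds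
    ((hyperfilter ℕ).map x) (le_principal_iff.mpr (by
      have : ∀ᶠ j in (hyperfilter ℕ : Filter ℕ), x j ∈ closedBall (0 : ℂ × ℂ) R :=
        Eventually.of_forall fun j =>
          mem_closedBall_zero_iff.mpr (hR _ (thick_le Y j (hx j _ (mem_ball_self hτ))))
      exact this))
  have hy' : Tendsto x (hyperfilter ℕ) (𝓝 y) := hy
  refine (infinite_of_mem_nhds y.2 (ball_mem_nhds y.2 hτ)) ((hf y.1).subset fun v hv => ?_)
  have h1 : Tendsto (fun n => ((x n).1, (x n).2 + (v - y.2))) (hyperfilter ℕ)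
      (𝓝 (y.1, y.2 + (v - y.2))) :=
    ((continuous_fst.tendsto y).comp hy').prodMk_nhds
      (((continuous_snd.tendsto y).comp hy').add_const _)
  rw [add_sub_cancel] at h1
  refine mem_of_thick hY.isClosed hyper_le h1 fun n => hx n _ ?_
  rw [mem_ball_iff_norm, add_sub_cancel_left]
  exact mem_ball_iff_norm.1 hv

/-- A set with an analytic disc contains a holomorphic graph over a disc or a vertical disc. -/
theorem HasDisc.cases {X : Set (ℂ × ℂ)} (h : HasDisc X) :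
    (∃ a ρ, 0 < ρ ∧ ∀ a' ρ', ball a' ρ' ⊆ ball a ρ → ¬ NoGr X a' ρ') ∨
      ∃ τ, 0 < τ ∧ ∀ τ' ≤ τ, ¬ NoVert X τ' := by
  obtain ⟨f, hf, ⟨s, hs, t, ht, hst⟩, hX⟩ := h
  have h1 : DifferentiableOn ℂ (fun u => (f u).1) (ball 0 1) := hf.fst
  have h2 : DifferentiableOn ℂ (fun u => (f u).2) (ball 0 1) := hf.snd
  have hp : IsPreconnected (ball (0 : ℂ) 1) := (convex_ball _ _).isPreconnected
  by_cases hd : EqOn (deriv fun u => (f u).1) 0 (ball 0 1)
  · right
    have e1 : ∀ u ∈ ball (0 : ℂ) 1, (f u).1 = (f s).1 := fun u hu =>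
      isOpen_ball.is_const_of_deriv_eq_zero hp h1 hd hu hs
    rcases (h2.analyticOnNhd isOpen_ball).is_constant_or_isOpen hp with ⟨w, hw⟩ | ho
    · exact absurd (Prod.ext (e1 t ht).symm ((hw s hs).trans (hw t ht).symm)) hst
    · obtain ⟨τ, hτ, hb⟩ := Metric.isOpen_iff.1 (ho _ Subset.rfl isOpen_ball) (f s).2
        ⟨s, hs, rfl⟩
      refine ⟨τ, hτ, fun τ' hτ' H => H (f s).1 (f s).2 fun v hv => ?_⟩
      obtain ⟨u, hu, e⟩ := hb (ball_subset_ball hτ' hv)
      have : ((f s).1, v) = f u := Prod.ext (e1 u hu).symm e.symm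
      rw [this]; exact hX u hu
  · left
    simp only [EqOn, not_forall] at hd
    obtain ⟨u, hu, hd⟩ := hd
    have ha : AnalyticAt ℂ (fun u => (f u).1) u := h1.analyticOnNhd isOpen_ball u hu
    have hs' := ha.hasStrictDerivAt
    have hr := ha.analyticAt_localInverse hd
    have e0 : hs'.localInverse _ _ _ hd (f u).1 = u :=
      HasStrictFDerivAt.localInverse_apply_image ..
    have e1 := hs'.eventually_right_inverse hd
    have e2 : ∀ᶠ z in 𝓝 (f u).1, hs'.localInverse _ _ _ hd z ∈ ball (0 : ℂ) 1 :=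
      hr.continuousAt.eventually (by rw [e0]; exact isOpen_ball.mem_nhds hu)
    obtain ⟨ρ, hρ, hb⟩ := Metric.eventually_nhds_iff_ball.1
      (e1.and (e2.and hr.eventually_analyticAt))
    refine ⟨(f u).1, ρ, hρ, fun a' ρ' hsub H =>
      H (fun z => (f (hs'.localInverse _ _ _ hd z)).2) (fun z hz => ?_) fun z hz => ?_⟩
    · obtain ⟨-, b2, b3⟩ := hb z (hsub hz)
      exact ((h2.differentiableAt (isOpen_ball.mem_nhds b2)).comp z
        b3.differentiableAt).differentiableWithinAt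
    · obtain ⟨b1, b2, -⟩ := hb z (hsub hz)
      have : (z, (f (hs'.localInverse _ _ _ hd z)).2) = f (hs'.localInverse _ _ _ hd z) :=
        Prod.ext b1.symm rfl
      rw [this]; exact hX _ b2

end Pool.Agent.Lib.MP_9ccfb7_an
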