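import Mathlib

open scoped ContDiff

namespace Pool.Agent.Lib.MP_9ccfb7_an

/-- The polynomially convex hull of `K`: the points `x` with `|p x| ≤ M` for every holomorphic
polynomial `p` and every bound `M` of `|p|` on `K`. -/
def hull (K : Set (ℂ × ℂ)) : Set (ℂ × ℂ) :=
  {x | ∀ (p : MvPolynomial (Fin 2) ℂ) (M : ℝ),
    (∀ y ∈ K, ‖MvPolynomial.eval ![y.1, y.2] p‖ ≤ M) → ‖MvPolynomial.eval ![x.1, x.2] p‖ ≤ M}

/-- `X` contains the image of a nonconstant holomorphic map from the open unit disc. -/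
def HasDisc (X : Set (ℂ × ℂ)) : Prop :=
  ∃ f : ℂ → ℂ × ℂ, DifferentiableOn ℂ f (Metric.ball 0 1) ∧
    (∃ s ∈ Metric.ball (0 : ℂ) 1, ∃ t ∈ Metric.ball (0 : ℂ) 1, f s ≠ f t) ∧
    ∀ s ∈ Metric.ball (0 : ℂ) 1, f s ∈ X

/-- `S` is a compact smooth real two-dimensional embedded submanifold, possibly with boundary:
near each of its points a smooth chart of the ambient space carries `S` to the half plane
`{(a, b) | b = 0, 0 ≤ re a}`. -/
def IsSurface (S : Set (ℂ × ℂ)) : Prop :=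
  IsCompact S ∧ ∀ p ∈ S, ∃ φ : OpenPartialHomeomorph (ℂ × ℂ) (ℂ × ℂ), p ∈ φ.source ∧
    ContDiffOn ℝ ∞ φ φ.source ∧ ContDiffOn ℝ ∞ φ.symm φ.target ∧
    ∀ x ∈ φ.source, (x ∈ S ↔ (φ x).2 = 0 ∧ 0 ≤ (φ x).1.re)

end Pool.Agent.Lib.MP_9ccfb7_an
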